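import Mathlib

namespace Pool.Agent.Results.MP_6eafb7_an.Pos

open Finset

/-- Generalized Bernoulli polynomials: `(t/(e^t-1))^a e^{xt} = ∑ B a m x t^m/m!`. -/
noncomputable def B (a m : ℕ) (x : ℝ) : ℝ :=
  (m.factorial : ℝ) * PowerSeries.coeff m
    (bernoulliPowerSeries ℝ ^ a * PowerSeries.rescale x (PowerSeries.exp ℝ))

/-- The sum `α_{n,k}(x)`. -/
noncomputable def alpha (n k : ℕ) (x : ℝ) : ℝ :=
  (-1) ^ k * ∑ j ∈ range (2 * k + 1),
    (-1) ^ j * (n.choose j : ℝ) * (n.choose (2 * k - j) : ℝ) * B n (n - j) x * B n (n - 2 * k + j) x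

/-- The sum `β_{n,k}(x)`. -/
noncomputable def beta (n k : ℕ) (x : ℝ) : ℝ :=
  (-1) ^ k * ∑ j ∈ range (2 * k + 1),
    (-1) ^ j * (n.choose j : ℝ) * (n.choose (2 * k - j) : ℝ) * B n j x * B n (2 * k - j) x

section series
open PowerSeries

noncomputable def F : ℝ⟦X⟧ := bernoulliPowerSeries ℝ
noncomputable def E (x : ℝ) : ℝ⟦X⟧ := rescale x (exp ℝ)
noncomputable def b (a m : ℕ) (x : ℝ) : ℝ := coeff m (F ^ a * E x)

lemma cE (x : ℝ) (j : ℕ) : coeff j (E x) = x ^ j / j.factorial := by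
  simp [E, coeff_rescale, div_eq_mul_inv]

lemma E_add (x y : ℝ) : E (x + y) = E x * E y := (exp_mul_exp_eq_exp_add x y).symm

lemma E_one : E 1 = exp ℝ := by simp [E]

lemma FE : F * (E 1 - 1) = X := by rw [E_one]; exact bernoulliPowerSeries_mul_exp_sub_one ℝ

lemma dE (x : ℝ) : d⁄dX ℝ (E x) = C x * E x := by
  ext j
  rw [coeff_derivative, coeff_C_mul, cE, cE, Nat.factorial_succ]
  have : (j.factorial : ℝ) ≠ 0 := by positivity
  push_cast
  field_simp
  ring

lemma dF : X * d⁄dX ℝ F = F - F ^ 2 * E 1 := by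
  have h := congrArg (d⁄dX ℝ) FE
  simp only [Derivation.leibniz, map_sub, dE, smul_eq_mul, derivative_X, map_one,
    Derivation.map_one_eq_zero] at h
  linear_combination F * h - d⁄dX ℝ F * FE

lemma rec_ser (a : ℕ) (x : ℝ) : X * d⁄dX ℝ (F ^ (a + 1) * E x) =
    C ((a : ℝ) + 1) * (F ^ (a + 1) * E x) - C ((a : ℝ) + 1) * (F ^ (a + 2) * E (x + 1))
      + C x * (X * (F ^ (a + 1) * E x)) := by
  simp only [Derivation.leibniz, Derivation.leibniz_pow, dE, smul_eq_mul, E_add, nsmul_eq_mul,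
    Nat.add_sub_cancel, map_add, map_natCast, map_one]
  push_cast
  linear_combination (E x * ((a : ℝ⟦X⟧) + 1) * F ^ a) * dF

lemma b_rec (n : ℕ) (x : ℝ) : ((n : ℝ) + 1) * b (n + 2) (n + 1) (x + 1) = x * b (n + 1) n x := by
  have h := congrArg (coeff (n + 1)) (rec_ser n x)
  simp only [coeff_succ_X_mul, coeff_derivative, map_add (coeff (n + 1)), map_sub, coeff_C_mul] at h
  unfold b
  linear_combination h

lemma b_zero (a : ℕ) (x : ℝ) : b a 0 x = 1 := by
  have h := cE x 0
  rw [coeff_zero_eq_constantCoeff_apply] at h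
  simp [b, F, bernoulliPowerSeries, h]

lemma b_prod (n : ℕ) (x : ℝ) :
    (n.factorial : ℝ) * b (n + 1) n x = ∏ i ∈ range n, (x - (i + 1)) := by
  induction n generalizing x with
  | zero => simp [b_zero]
  | succ n ih =>
    have h := b_rec n (x - 1)
    rw [sub_add_cancel] at h
    rw [prod_range_succ', Nat.factorial_succ]
    have e : ∏ i ∈ range n, (x - (((i + 1 : ℕ) : ℝ) + 1)) = ∏ i ∈ range n, (x - 1 - (i + 1)) :=
      prod_congr rfl fun i _ => by push_cast; ring
    rw [e, ← ih]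
    push_cast
    linear_combination (n.factorial : ℝ) * h

lemma b_diff (a m : ℕ) (x : ℝ) : b (a + 1) (m + 1) (x + 1) - b (a + 1) (m + 1) x = b a m x := by
  have h : F ^ (a + 1) * E (x + 1) - F ^ (a + 1) * E x = X * (F ^ a * E x) := by
    rw [E_add]; linear_combination (F ^ a * E x) * FE
  have h2 := congrArg (coeff (m + 1)) h
  rwa [map_sub, coeff_succ_X_mul] at h2

lemma b_sum (a m : ℕ) (x : ℝ) :
    b a m x = ∑ p ∈ antidiagonal m, coeff p.1 (F ^ a) * (x ^ p.2 / p.2.factorial) := by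
  simp only [b, coeff_mul, cE]

lemma b_der (a m : ℕ) (x : ℝ) : HasDerivAt (b a (m + 1)) (b a m x) x := by
  have e : b a (m + 1) = fun x => coeff (m + 1) (F ^ a) +
      ∑ p ∈ antidiagonal m, coeff p.1 (F ^ a) * (x ^ (p.2 + 1) / (p.2 + 1).factorial) := by
    funext y
    rw [b_sum, Nat.sum_antidiagonal_succ']
    simp
  rw [e, b_sum]
  refine HasDerivAt.const_add _ (HasDerivAt.fun_sum fun p _ => ?_)
  refine (((hasDerivAt_pow (p.2 + 1) x).div_const _).const_mul _).congr_deriv ?_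
  have : (p.2.factorial : ℝ) ≠ 0 := by positivity
  rw [Nat.factorial_succ]
  push_cast
  field_simp

lemma b_cont (a m : ℕ) : Continuous (b a m) := by
  have e : b a m = fun x => ∑ p ∈ antidiagonal m,
      coeff p.1 (F ^ a) * (x ^ p.2 / p.2.factorial) := funext (b_sum a m)
  rw [e]; fun_prop

lemma b_taylor (a m : ℕ) (x y : ℝ) :
    b a m (x + y) = ∑ j ∈ range (m + 1), b a (m - j) x * (y ^ j / j.factorial) := by
  rw [b, E_add, ← mul_assoc, mul_comm, coeff_mul, Nat.sum_antidiagonal_eq_sum_range_succ_mk]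
  exact sum_congr rfl fun j _ => by rw [cE, mul_comm]; rfl

end series

lemma sgn (n k : ℕ) (ξ : ℝ) (h1 : (k : ℝ) < ξ) (h2 : ξ < k + 1) :
    0 < (-1) ^ (n - k) * ∏ i ∈ range n, (ξ - (i + 1)) := by
  induction n with
  | zero => simp
  | succ n ih =>
    rw [prod_range_succ]
    rcases le_or_gt (n + 1) k with h | h
    · have e1 : n + 1 - k = n - k := by omega
      have : ((n : ℝ) + 1) ≤ k := by exact_mod_cast h
      rw [e1, ← mul_assoc]
      exact mul_pos ih (by linarith)
    · have e1 : n + 1 - k = n - k + 1 := by omega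
      have : (k : ℝ) ≤ n := by exact_mod_cast (by omega : k ≤ n)
      rw [e1, pow_succ]
      nlinarith [mul_pos ih (by linarith : 0 < (n : ℝ) + 1 - ξ)]

lemma b_sgn (n k : ℕ) : 0 < (-1) ^ (n - k) * b n n k := by
  obtain ⟨ξ, hξ, he⟩ := exists_hasDerivAt_eq_slope (b (n + 1) (n + 1)) (b (n + 1) n)
    (by linarith : (k : ℝ) < k + 1) (b_cont _ _).continuousOn (fun x _ => b_der _ _ x)
  rw [b_diff] at he
  have h := sgn n k ξ hξ.1 hξ.2
  rw [← b_prod, he] at h
  have hf : (0 : ℝ) < n.factorial := by positivity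
  have : (0 : ℝ) < n.factorial * ((-1) ^ (n - k) * b n n k) := by
    convert h using 1; ring
  exact (mul_pos_iff_of_pos_left hf).mp this

lemma b_root (n k : ℕ) (hk : k < n) : ∃ ρ : ℝ, (k : ℝ) < ρ ∧ ρ < k + 1 ∧ b n n ρ = 0 := by
  have h1 := b_sgn n k
  have h2 := b_sgn n (k + 1)
  have e : n - k = n - (k + 1) + 1 := by omega
  rw [e, pow_succ] at h1
  push_cast at h2
  have hc : ContinuousOn (fun t => (-1 : ℝ) ^ (n - (k + 1)) * b n n t) (Set.Icc (k : ℝ) (k + 1)) :=
    (continuous_const.mul (b_cont n n)).continuousOn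
  obtain ⟨ρ, hρ, h0⟩ := intermediate_value_Ioo (by linarith : (k : ℝ) ≤ k + 1) hc
    (show (0 : ℝ) ∈ Set.Ioo _ _ from ⟨by linarith, h2⟩)
  exact ⟨ρ, hρ.1, hρ.2, (mul_eq_zero.mp h0).resolve_left (pow_ne_zero _ (by norm_num))⟩

open Polynomial

def Good (p : ℝ[X]) : Prop :=
  ∃ S : ℝ[X], (∀ k, 0 ≤ S.coeff k) ∧ p * p.comp (-X) = S.comp (-X ^ 2)

lemma Good.mul {p q : ℝ[X]} (hp : Good p) (hq : Good q) : Good (p * q) := by
  obtain ⟨S, hS, e⟩ := hp
  obtain ⟨T, hT, f⟩ := hq
  refine ⟨S * T, fun k => ?_, ?_⟩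
  · rw [coeff_mul]; exact sum_nonneg fun x _ => mul_nonneg (hS _) (hT _)
  · rw [mul_comp, mul_comp, ← e, ← f]; ring

lemma good_lin (u v : ℝ) : Good (C u + C v * X) := by
  refine ⟨C (u ^ 2) + C (v ^ 2) * X, fun k => ?_, ?_⟩
  · simp only [coeff_add, coeff_C_mul, coeff_C, coeff_X]
    split_ifs <;> positivity
  · simp; ring

lemma good_one : Good 1 := by simpa using good_lin 1 0

lemma good_prod (s : Multiset ℝ) :
    Good (s.map fun r => X - C r).prod ∧ Good (s.map fun r => X - C r).prod.reverse := by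
  induction s using Multiset.induction_on with
  | empty =>
    have : (1 : ℝ[X]).reverse = 1 := by rw [← C_1, reverse_C]
    simp [this, good_one]
  | cons r s ih =>
    rw [Multiset.map_cons, Multiset.prod_cons, reverse_mul_of_domain]
    have e1 : (X - C r : ℝ[X]) = C (-r) + C 1 * X := by simp; ring
    have e2 : (X - C r : ℝ[X]).reverse = C 1 + C (-r) * X := by
      rw [reverse, natDegree_X_sub_C, reflect_sub, reflect_C, reflect_one_X]; simp; ring
    exact ⟨(e1 ▸ good_lin (-r) 1).mul ih.1, (e2 ▸ good_lin 1 (-r)).mul ih.2⟩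

lemma coeff_sq (S : ℝ[X]) (k : ℕ) : (S.comp (-X ^ 2)).coeff (2 * k) = (-1) ^ k * S.coeff k := by
  induction S using Polynomial.induction_on' with
  | add p q hp hq => rw [add_comp, coeff_add, hp, hq, coeff_add]; ring
  | monomial n a =>
    have : ((-X ^ 2 : ℝ[X])) ^ n = C ((-1) ^ n) * X ^ (2 * n) := by
      rw [neg_pow, pow_mul]; simp
    rw [monomial_comp, this, ← mul_assoc, ← C_mul, coeff_C_mul, coeff_X_pow, coeff_monomial]
    by_cases h : n = k
    · subst h; simp; ring
    · have : ¬ 2 * k = 2 * n := by omega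
      simp [h, this]

lemma coeff_ng (S : ℝ[X]) (k : ℕ) : (S.comp (-X)).coeff k = (-1) ^ k * S.coeff k := by
  induction S using Polynomial.induction_on' with
  | add p q hp hq => rw [add_comp, coeff_add, hp, hq, coeff_add]; ring
  | monomial n a =>
    have : ((-X : ℝ[X])) ^ n = C ((-1) ^ n) * X ^ n := by
      rw [neg_pow]; simp
    rw [monomial_comp, this, ← mul_assoc, ← C_mul, coeff_C_mul, coeff_X_pow, coeff_monomial]
    by_cases h : n = k
    · subst h; simp; ring
    · simp [h, Ne.symm h]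

lemma Good.sum {p : ℝ[X]} (hp : Good p) (k : ℕ) :
    0 ≤ (-1) ^ k * ∑ j ∈ range (2 * k + 1), (-1) ^ j * p.coeff j * p.coeff (2 * k - j) := by
  obtain ⟨S, hS, e⟩ := hp
  have h := congrArg (fun q => q.coeff (2 * k)) e
  simp only [coeff_sq] at h
  rw [mul_comm, coeff_mul, Nat.sum_antidiagonal_eq_sum_range_succ_mk] at h
  simp only [coeff_ng] at h
  rw [h, ← mul_assoc, ← mul_pow]
  simpa using hS k

noncomputable def P (n : ℕ) (x : ℝ) : ℝ[X] :=
  ∑ j ∈ range (n + 1), monomial j ((n.choose j : ℝ) * B n (n - j) x)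

lemma P_coeff (n : ℕ) (x : ℝ) (j : ℕ) : (P n x).coeff j = (n.choose j : ℝ) * B n (n - j) x := by
  simp only [P, finset_sum_coeff, coeff_monomial, sum_ite_eq', mem_range]
  split_ifs with h
  · rfl
  · rw [Nat.choose_eq_zero_of_lt (by omega)]; simp

lemma B_eq (a m : ℕ) (x : ℝ) : B a m x = m.factorial * b a m x := rfl

lemma P_eval (n : ℕ) (x y : ℝ) : (P n x).eval y = n.factorial * b n n (x + y) := by
  rw [P, eval_finset_sum, b_taylor, mul_sum]
  refine sum_congr rfl fun j hj => ?_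
  have hj' : j ≤ n := by simpa [Nat.lt_succ_iff] using hj
  rw [eval_monomial, B_eq, ← Nat.choose_mul_factorial_mul_factorial hj']
  have : (j.factorial : ℝ) ≠ 0 := by positivity
  push_cast
  field_simp

lemma P_deg (n : ℕ) (x : ℝ) : (P n x).natDegree = n ∧ (P n x).Monic := by
  have h1 : (P n x).natDegree ≤ n := by
    rw [natDegree_le_iff_coeff_eq_zero]
    intro j hj
    rw [P_coeff, Nat.choose_eq_zero_of_lt hj]; simp
  have h2 : (P n x).coeff n = 1 := by simp [P_coeff, B_eq, b_zero]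
  exact ⟨natDegree_eq_of_le_of_coeff_ne_zero h1 (by rw [h2]; norm_num),
    monic_of_natDegree_le_of_coeff_eq_one n h1 h2⟩

lemma P_good (n : ℕ) (x : ℝ) : Good (P n x) ∧ Good (P n x).reverse := by
  classical
  obtain ⟨hd, hm⟩ := P_deg n x
  choose ρ h1 h2 h3 using fun k : Fin n => b_root n k k.2
  have hinj : Function.Injective fun k : Fin n => ρ k - x := by
    intro i j hij
    have hij' : ρ i = ρ j := by simpa using hij
    have a1 : ((i : ℕ) : ℝ) < (j : ℕ) + 1 := by linarith [h1 i, h2 j]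
    have a2 : ((j : ℕ) : ℝ) < (i : ℕ) + 1 := by linarith [h1 j, h2 i]
    have a1' : (i : ℕ) < j + 1 := by exact_mod_cast a1
    have a2' : (j : ℕ) < i + 1 := by exact_mod_cast a2
    exact Fin.ext (by omega)
  have hsub : univ.image (fun k : Fin n => ρ k - x) ⊆ (P n x).roots.toFinset := by
    intro r hr
    obtain ⟨k, -, rfl⟩ := mem_image.mp hr
    rw [Multiset.mem_toFinset, mem_roots hm.ne_zero, IsRoot, P_eval]
    simp [h3]
  have hc := card_le_card hsub
  rw [card_image_of_injective _ hinj, card_univ, Fintype.card_fin] at hc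
  have hcard : (P n x).roots.card = (P n x).natDegree :=
    le_antisymm (card_roots' _) (by rw [hd]; exact hc.trans (Multiset.toFinset_card_le _))
  have := good_prod (P n x).roots
  rwa [prod_multiset_X_sub_C_of_monic_of_roots_card_eq hm hcard] at this

theorem result (n : ℕ) (x : ℝ) :
    (∀ k, 2 * k ≤ n → 0 ≤ alpha n k x) ∧ (∀ k, 2 * k ≤ n → 0 ≤ beta n k x) := by
  obtain ⟨h1, h2⟩ := P_good n x
  constructor
  · intro k hk
    refine (h1.sum k).trans_eq ?_
    unfold alpha
    congr 1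
    refine sum_congr rfl fun j hj => ?_
    have hj' : j ≤ 2 * k := by simpa [Nat.lt_succ_iff] using hj
    have e : n - (2 * k - j) = n - 2 * k + j := by omega
    rw [P_coeff, P_coeff, e]; ring
  · intro k hk
    refine (h2.sum k).trans_eq ?_
    unfold beta
    congr 1
    refine sum_congr rfl fun j hj => ?_
    have hj' : j ≤ 2 * k := by simpa [Nat.lt_succ_iff] using hj
    have c : ∀ i, i ≤ n → (P n x).reverse.coeff i = (n.choose i : ℝ) * B n i x := by
      intro i hi
      rw [coeff_reverse, (P_deg n x).1, revAt_le hi, P_coeff, Nat.choose_symm hi,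
        Nat.sub_sub_self hi]
    rw [c j (by omega), c _ (by omega)]; ring

end Pool.Agent.Results.MP_6eafb7_an.Pos
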